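import Pool.Agent.Lib.MP_5d54af_an.Sharp.Final

/-!
Zeros of Taylor sections of a non-constant zero-free entire function: at suitable zeros `z₀` of
sections of arbitrarily large index, `log ‖f z₀‖` is as negative as the size of `log ‖f‖` on the
disc of radius `‖z₀‖` allows, up to any factor `θ < 1`; the factor `1` is not reached in general.
-/

set_option autoImplicit false

namespace Pool.Agent.Results.MP_5d54af_an.Sharp

open Polynomial in
theorem finite_zeros (a : ℕ → ℂ) (h0 : a 0 ≠ 0) (n : ℕ) :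
    {z : ℂ | ∑ k ∈ Finset.range (n + 1), a k * z ^ k = 0}.Finite := by
  have hp : (∑ k ∈ Finset.range (n + 1), C (a k) * X ^ k : ℂ[X]) ≠ 0 := by
    intro h
    have := congrArg (eval 0) h
    rw [eval_finsetSum, Finset.sum_range_succ'] at this
    simp [h0] at this
  refine (Polynomial.finite_setOfPred_isRoot hp).subset fun z hz => ?_
  simpa [IsRoot, eval_finsetSum] using hz

theorem result (θ : ℝ) :
    (∀ f : ℂ → ℂ, Differentiable ℂ f → (∀ z, f z ≠ 0) → (∃ z w, f z ≠ f w) →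
      ∀ ε : ℝ, 0 < ε → ∀ N : ℕ, ∃ n, N ≤ n ∧ ∃ z₀ : ℂ,
        ∑ k ∈ Finset.range (n + 1), iteratedDeriv k f 0 / (k.factorial : ℂ) * z₀ ^ k = 0 ∧
          ‖f z₀‖ < ε ∧
            ∀ w : ℂ, ‖w‖ ≤ ‖z₀‖ → Real.log ‖f z₀‖ ≤ -θ * |Real.log ‖f w‖|) ↔ θ < 1 := by
  constructor
  · intro H
    by_contra hθ
    have hn : ∀ z : ℂ, Real.log ‖2 * Complex.exp z‖ = Real.log 2 + z.re := fun z => by
      rw [norm_mul, Complex.norm_exp, Complex.norm_ofNat,
        Real.log_mul two_ne_zero (Real.exp_pos _).ne', Real.log_exp]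
    obtain ⟨n, -, z₀, -, -, h⟩ := H (fun z => 2 * Complex.exp z) (by fun_prop)
      (fun z => mul_ne_zero two_ne_zero (Complex.exp_ne_zero z))
      ⟨0, 1, fun h => by
        have h1 := congrArg (fun x => Real.log ‖x‖) h
        simp only [hn] at h1
        simp at h1⟩ 1 one_pos 0
    have h1 := h (‖z₀‖ : ℝ) (by simp)
    have h2 : 0 < Real.log 2 := Real.log_pos one_lt_two
    rw [hn, hn, Complex.ofReal_re, abs_of_pos (by positivity)] at h1
    have h3 := (abs_le.1 (Complex.abs_re_le_norm z₀)).1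
    have h4 : 1 * (Real.log 2 + ‖z₀‖) ≤ θ * (Real.log 2 + ‖z₀‖) :=
      mul_le_mul_of_nonneg_right (not_lt.1 hθ) (by positivity)
    linarith
  · intro hθ f hf h0 hc ε hε N
    set a : ℕ → ℂ := fun k => iteratedDeriv k f 0 / (k.factorial : ℂ) with ha
    have hs : ∀ z, HasSum (fun k => a k * z ^ k) (f z) := fun z => by
      have h := Complex.hasSum_taylorSeries_of_entire hf 0 z
      have e : (fun k => a k * z ^ k) =
          fun k : ℕ => (k.factorial : ℂ)⁻¹ • (z - 0) ^ k • iteratedDeriv k f 0 := by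
        funext k
        simp only [ha, smul_eq_mul, sub_zero]
        ring
      rw [e]
      exact h
    have ha0 : a 0 ≠ 0 := by simpa [ha] using h0 0
    have hfin : (⋃ n ∈ Set.Iio N, {z : ℂ | ∑ k ∈ Finset.range (n + 1), a k * z ^ k = 0}).Finite :=
      (Set.finite_Iio N).biUnion fun n _ => finite_zeros a ha0 n
    obtain ⟨δ, hδ, hδ'⟩ : ∃ δ : ℝ, 0 < δ ∧ ∀ z ∈ ⋃ n ∈ Set.Iio N,
        {z : ℂ | ∑ k ∈ Finset.range (n + 1), a k * z ^ k = 0}, δ ≤ ‖f z‖ := by
      rcases Set.eq_empty_or_nonempty (⋃ n ∈ Set.Iio N,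
        {z : ℂ | ∑ k ∈ Finset.range (n + 1), a k * z ^ k = 0}) with he | hne
      · exact ⟨1, one_pos, fun z hz => by rw [he] at hz; exact hz.elim⟩
      · obtain ⟨z, -, hz⟩ := Set.exists_min_image _ (fun z => ‖f z‖) hfin hne
        exact ⟨‖f z‖, norm_pos_iff.2 (h0 z), hz⟩
    obtain ⟨n, z₀, h1, h2, h3⟩ :=
      Pool.Agent.Lib.MP_5d54af_an.Sharp.sharp a f hs h0 hc hθ (lt_min hε hδ)
    refine ⟨n, ?_, z₀, h1, h2.trans_le (min_le_left _ _), h3⟩
    by_contra hn
    have := hδ' z₀ (Set.mem_biUnion (not_le.1 hn) h1)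
    exact absurd (h2.trans_le (min_le_right _ _)) (not_lt.2 this)

/-- The question as posed, with arbitrarily large index. -/
theorem posed (f : ℂ → ℂ) (hf : Differentiable ℂ f) (h0 : ∀ z, f z ≠ 0)
    (hc : ∃ z w, f z ≠ f w) (ε : ℝ) (hε : 0 < ε) (N : ℕ) :
    ∃ n, N ≤ n ∧ ∃ z₀ : ℂ,
      ∑ k ∈ Finset.range (n + 1), iteratedDeriv k f 0 / (k.factorial : ℂ) * z₀ ^ k = 0 ∧
        ‖f z₀‖ < ε := by
  obtain ⟨n, hn, z₀, h1, h2, -⟩ := (result 0).2 one_pos f hf h0 hc ε hε N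
  exact ⟨n, hn, z₀, h1, h2⟩

end Pool.Agent.Results.MP_5d54af_an.Sharp
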